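import Pool.Agent.helper74.VQ.SpecC

/-! # Row vq:VTN of MP_07c750_an (the big step is a contraction) -/

set_option autoImplicit false

open scoped MatrixGroups ContDiff Topology UpperHalfPlane ComplexConjugate ENNReal
open UpperHalfPlane MeasureTheory Filter Set

namespace Pool.Agent.VQ

open Pool.Agent.RS

theorem VTN_adm {C C' : ℝ} {A : Prm} (hC : 1 ≤ C) (hC' : C' ≤ C) (h : Adm C A) : Adm C' A := by
  have e3 := h.e3
  have hz : 0 < A.z := lt_of_lt_of_le (mul_pos (by linarith) e3) h.z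
  have hz1 : 0 < A.z1 := lt_of_lt_of_le (mul_pos (by linarith) hz) h.z1
  have hz2 : 0 < A.z2 := lt_of_lt_of_le (mul_pos (by linarith) hz1) h.z2
  have hm : (0 : ℝ) ≤ (A.m : ℝ) := Nat.cast_nonneg _
  exact ⟨e3, h.m, (mul_le_mul_of_nonneg_right hC' e3.le).trans h.z, (mul_le_mul_of_nonneg_right hC' hz.le).trans h.z1,
    (mul_le_mul_of_nonneg_right hC' hz1.le).trans h.z2,
    (mul_le_mul_of_nonneg_right hC' (mul_nonneg hm hz2.le)).trans h.up, h.tu⟩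

theorem VTN_pow (n : ℕ) (x : ℝ) (hx : 0 ≤ x) (hn : 2 * (n * x) ≤ 1) : (1 + x) ^ n ≤ 1 + 2 * (n * x) := by
  have hy0 : 0 ≤ (n : ℝ) * x := mul_nonneg (Nat.cast_nonneg _) hx
  have h1 : (1 + x) ^ n ≤ Real.exp (n * x) := by
    have h2 : 1 + x ≤ Real.exp x := by linarith [Real.add_one_le_exp x]
    calc (1 + x) ^ n ≤ (Real.exp x) ^ n := pow_le_pow_left₀ (by linarith) h2 n
      _ = Real.exp (n * x) := by rw [← Real.exp_nat_mul]
  have h3 : 1 - n * x ≤ Real.exp (-(n * x)) := by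
    have := Real.add_one_le_exp (-((n : ℝ) * x))
    linarith
  have h4 : Real.exp (n * x) * Real.exp (-(n * x)) = 1 := by
    rw [← Real.exp_add, add_neg_cancel, Real.exp_zero]
  have h5 : 0 < Real.exp (n * x) := Real.exp_pos _
  have h6 : Real.exp (n * x) * (1 - n * x) ≤ 1 :=
    (mul_le_mul_of_nonneg_left h3 h5.le).trans (le_of_eq h4)
  have h7 : Real.exp (n * x) ≤ 1 + 2 * (n * x) := by
    by_contra hcon
    push Not at hcon
    have h8 : (1 + 2 * (n * x)) * (1 - n * x) < Real.exp (n * x) * (1 - n * x) :=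
      mul_lt_mul_of_pos_right hcon (by linarith)
    nlinarith
  exact h1.trans h7

theorem VTN_num (n : ℕ) : ∃ R1 : ℝ, 1 ≤ R1 ∧ ∀ R : ℝ, R1 ≤ R →
    (1 + R ^ (-(1 / 5) : ℝ)) ^ n ≤ 1 + R ^ (-(1 / 6) : ℝ) := by
  refine ⟨(2 * n + 1) ^ 30, one_le_pow₀ (by have := Nat.cast_nonneg (α := ℝ) n; linarith), fun R hR => ?_⟩
  have hn : (0 : ℝ) ≤ n := Nat.cast_nonneg _
  have hR1 : 1 ≤ R := le_trans (one_le_pow₀ (by linarith)) hR
  have hR0 : 0 < R := by linarith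
  have h1 : (2 * n + 1 : ℝ) ≤ R ^ (1 / 30 : ℝ) := by
    have h2 : ((2 * n + 1 : ℝ) ^ 30) ^ (1 / 30 : ℝ) ≤ R ^ (1 / 30 : ℝ) :=
      Real.rpow_le_rpow (by positivity) hR (by norm_num)
    have h3 : ((2 * n + 1 : ℝ) ^ 30) ^ (1 / 30 : ℝ) = 2 * n + 1 := by
      rw [← Real.rpow_natCast, ← Real.rpow_mul (by positivity)]
      norm_num
    rwa [h3] at h2
  have h4 : R ^ (1 / 30 : ℝ) * R ^ (-(1 / 5) : ℝ) = R ^ (-(1 / 6) : ℝ) := by
    rw [← Real.rpow_add hR0]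
    norm_num
  have h5 : 0 < R ^ (-(1 / 5) : ℝ) := Real.rpow_pos_of_pos hR0 _
  have h6 : 2 * (n * R ^ (-(1 / 5) : ℝ)) ≤ R ^ (-(1 / 6) : ℝ) := by
    rw [← h4]
    have : 2 * (n * R ^ (-(1 / 5) : ℝ)) = (2 * n) * R ^ (-(1 / 5) : ℝ) := by ring
    rw [this]
    exact mul_le_mul_of_nonneg_right (by linarith) h5.le
  have h7 : R ^ (-(1 / 6) : ℝ) ≤ 1 := Real.rpow_le_one_of_one_le_of_nonpos hR1 (by norm_num)
  exact (VTN_pow n _ h5.le (h6.trans h7)).trans (by linarith)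

theorem VTN_smulI : Continuous (fun g : SL(2, ℝ) => (g • I : ℍ)) := by fun_prop

theorem VTN_meas {Γ : Subgroup SL(2, ℝ)} {δ : ℝ} {B : ℕ → ℝ} {D : Dyn} (hD : OKD Γ δ B D) (f : ℍ → ℝ) (hf : Continuous f) :
    Measurable (fun x : (SL(2, ℝ) × ℝ) × ℝ => D.U (D.fl x.1.2 x.2 x.1.1 • I) * f (D.fl x.1.2 x.2 x.1.1 • I)) := by
  classical
  have : SecondCountableTopology SL(2, ℝ) := A_GLC.2.1
  have hU : Continuous D.U := hD.pot.inv.1
  have hs : MeasurableSet {x : (SL(2, ℝ) × ℝ) × ℝ | |x.1.2| ≤ 1 / 8} := by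
    have : IsClosed {x : (SL(2, ℝ) × ℝ) × ℝ | |x.1.2| ≤ 1 / 8} :=
      isClosed_le (by fun_prop) continuous_const
    exact this.measurableSet
  have h1 : ContinuousOn (fun x : (SL(2, ℝ) × ℝ) × ℝ => D.fl x.1.2 x.2 x.1.1) {x | |x.1.2| ≤ 1 / 8} := by
    have h2 : ContinuousOn (fun x : (SL(2, ℝ) × ℝ) × ℝ => ((x.1.2, x.2, x.1.1) : ℝ × ℝ × SL(2, ℝ)))
        {x | |x.1.2| ≤ 1 / 8} := by
      refine Continuous.continuousOn ?_
      fun_prop
    exact hD.cfl.comp h2 (fun x hx => hx)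
  have h3 : ContinuousOn (fun x : (SL(2, ℝ) × ℝ) × ℝ => x.1.1) {x | |x.1.2| ≤ 1 / 8}ᶜ := by
    refine Continuous.continuousOn ?_
    fun_prop
  have h4 := ContinuousOn.measurable_piecewise h1 h3 hs
  have h5 : (fun x : (SL(2, ℝ) × ℝ) × ℝ => D.fl x.1.2 x.2 x.1.1) =
      ({x : (SL(2, ℝ) × ℝ) × ℝ | |x.1.2| ≤ 1 / 8}).piecewise (fun x : (SL(2, ℝ) × ℝ) × ℝ => D.fl x.1.2 x.2 x.1.1) (fun x => x.1.1) := by
    funext x
    by_cases hx : x ∈ {x : (SL(2, ℝ) × ℝ) × ℝ | |x.1.2| ≤ 1 / 8}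
    · rw [Set.piecewise_eq_of_mem _ _ _ hx]
    · rw [Set.piecewise_eq_of_notMem _ _ _ hx]
      exact (hD.out x.1.2 x.2 x.1.1 (not_le.1 hx)).1
  have h6 : Measurable (fun x : (SL(2, ℝ) × ℝ) × ℝ => D.fl x.1.2 x.2 x.1.1) := by
    rw [h5]
    exact h4
  have h7 : Continuous (fun g : SL(2, ℝ) => D.U (g • I) * f (g • I)) :=
    (hU.comp VTN_smulI).mul (hf.comp VTN_smulI)
  exact h7.measurable.comp h6

theorem VTN_thM {Γ : Subgroup SL(2, ℝ)} {δ : ℝ} {B : ℕ → ℝ} {D : Dyn} (hD : OKD Γ δ B D) (f : ℍ → ℝ) (hf : Continuous f)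
    (R t : ℝ) : Measurable (thP D f R t) := by
  have h1 := VTN_meas hD f hf
  unfold thP
  refine measurable_const.mul ?_
  simp only [intervalIntegral]
  have h2 : ∀ s : Set ℝ, Measurable (fun p : SL(2, ℝ) × ℝ => ∫ u in s, D.U (D.fl p.2 u p.1 • I) * f (D.fl p.2 u p.1 • I)) := by
    intro s
    have h3 : StronglyMeasurable (Function.uncurry fun (p : SL(2, ℝ) × ℝ) (u : ℝ) =>
        D.U (D.fl p.2 u p.1 • I) * f (D.fl p.2 u p.1 • I)) := h1.stronglyMeasurable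
    exact (h3.integral_prod_right (ν := volume.restrict s)).measurable
  exact (h2 _).sub (h2 _)

theorem VTN_thI (hHFA : HFA_stmt) {Γ : Subgroup SL(2, ℝ)} {δ : ℝ} {B : ℕ → ℝ} {D : Dyn} (hD : OKD Γ δ B D) (hδ : δ ≤ 1 / 10)
    (f : ℍ → ℝ) (hf : QU.Inv Γ f) (R t : ℝ) (γ : Γ) (p : SL(2, ℝ) × ℝ) :
    thP D f R t ((γ : SL(2, ℝ)) * p.1, p.2) = thP D f R t p := by
  have h1 : ∀ s, D.fl p.2 s ((γ : SL(2, ℝ)) * p.1) = (γ : SL(2, ℝ)) * D.fl p.2 s p.1 := by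
    intro s
    by_cases hE : |p.2| ≤ 1 / 8
    · exact (hHFA Γ δ B D hD hδ p.2 0 s hE p.1).2.1 γ
    · rw [(hD.out p.2 s _ (not_le.1 hE)).1, (hD.out p.2 s _ (not_le.1 hE)).1]
  have h2 : ∀ (g : ℍ → ℝ), QU.Inv Γ g → ∀ h : SL(2, ℝ), g (((γ : SL(2, ℝ)) * h) • I) = g (h • I) := by
    intro g hg h
    rw [mul_smul]
    exact hg.2 γ (h • I)
  unfold thP
  simp only [h1, h2 D.U hD.pot.inv, h2 f hf]

theorem VTN_proof (hVTS : VTS_stmt) (hVUM : VUM_stmt) (hHFA : HFA_stmt) : VTN_stmt := by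
  obtain ⟨C1, hC1, hS⟩ := hVTS
  obtain ⟨C2, hC2, hM⟩ := hVUM
  refine ⟨max C1 C2, le_trans hC1 (le_max_left _ _), fun ch B A hch hA => ?_⟩
  have hmax : 1 ≤ max C1 C2 := le_trans hC1 (le_max_left _ _)
  obtain ⟨R2, hR2, hS⟩ := hS ch B A hch (VTN_adm hmax (le_max_left _ _) hA)
  obtain ⟨R3, hR3, hM⟩ := hM ch B A hch (VTN_adm hmax (le_max_right _ _) hA)
  obtain ⟨R4, hR4, hN⟩ := VTN_num (A.m + 1)
  refine ⟨max (max R2 R3) R4, le_trans hR2 (le_trans (le_max_left _ _) (le_max_left _ _)), ?_⟩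
  intro R δ Γ F D hR hDm hD hδ
  have hRR2 : R2 ≤ R := le_trans (le_trans (le_max_left _ _) (le_max_left _ _)) hR
  have hRR3 : R3 ≤ R := le_trans (le_trans (le_max_right _ _) (le_max_left _ _)) hR
  have hRR4 : R4 ≤ R := le_trans (le_max_right _ _) hR
  have hR0 : 0 < R := by linarith
  obtain ⟨m1, m2, m3, m4, m5, m6, m7⟩ := hM R δ Γ F D hRR3 hDm hD hδ
  have hx0 : 0 < R ^ (-(1 / 5) : ℝ) := Real.rpow_pos_of_pos hR0 _
  have hnP : ∀ v, 0 ≤ nP F 2 R v := fun v => integral_nonneg fun p => sq_nonneg _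
  have hFP : ∀ k v, FP Γ F v → FP Γ F (Op (usm D ch A R k) v) := fun k v hv =>
    m6 (usm D ch A R k) v (m2 k) (fun p q h => m5 k p q h) hv
  have hind : ∀ (k : ℕ) (v : SL(2, ℝ) × ℝ → ℂ), FP Γ F v →
      nP F 2 R (Op (usm D ch A R k) v) ≤ ((1 + R ^ (-(1 / 5) : ℝ)) ^ (k + 1)) ^ 2 * nP F 2 R v := by
    intro k
    induction k with
    | zero =>
      intro v hv
      have h1 := (hS R δ Γ F D v hRR2 hDm hD hδ hv).2.2.2
      have h2 : usm D ch A R 0 = pr D ch A R := rfl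
      rw [h2, zero_add, pow_one]
      exact h1
    | succ k ih =>
      intro v hv
      have h3 : Op (usm D ch A R (k + 1)) v = Op (us D ch A R) (Op (usm D ch A R k) v) := by
        funext p
        exact m7 k v p hv
      rw [h3]
      have h4 := (hS R δ Γ F D (Op (usm D ch A R k) v) hRR2 hDm hD hδ (hFP k v hv)).2.2.1
      refine h4.trans ?_
      refine (mul_le_mul_of_nonneg_left (ih v hv) (sq_nonneg _)).trans (le_of_eq ?_)
      ring
  have h1 : ∀ (k : ℕ) (v : SL(2, ℝ) × ℝ → ℂ), k ≤ A.m → FP Γ F v →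
      nP F 2 R (Op (usm D ch A R k) v) ≤ (1 + R ^ (-(1 / 6) : ℝ)) ^ 2 * nP F 2 R v := by
    intro k v hk hv
    refine (hind k v hv).trans (mul_le_mul_of_nonneg_right ?_ (hnP v))
    refine pow_le_pow_left₀ (by positivity) ?_ 2
    refine le_trans ?_ (hN R hRR4)
    exact pow_le_pow_right₀ (by linarith) (by omega)
  refine ⟨h1, fun f t hf => ?_⟩
  have hth := VTN_thM hD f hf.1 R
  have hthI := VTN_thI hHFA hD hδ f hf R
  have hph : ∀ p, ‖Complex.exp (-(((thP D f R (A.tu R) p : ℝ) : ℂ) * Complex.I))‖ = 1 := by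
    intro p
    have h5 : -(((thP D f R (A.tu R) p : ℝ) : ℂ) * Complex.I) = ((-(thP D f R (A.tu R) p) : ℝ) : ℂ) * Complex.I := by
      push_cast
      ring
    rw [h5, Complex.norm_exp_ofReal_mul_I]
  have hK := m2 A.m
  refine ⟨hth t, hthI t, ⟨?_, ?_, ?_, ?_⟩, ?_⟩
  · have h6 : Measurable (fun p : SL(2, ℝ) × ℝ => Complex.exp (-(((thP D f R (A.tu R) p : ℝ) : ℂ) * Complex.I))) := by
      have h7 := hth (A.tu R)
      fun_prop
    have h8 : Function.uncurry (KB D ch A R f) = fun x : (SL(2, ℝ) × ℝ) × (SL(2, ℝ) × ℝ) =>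
        Complex.exp (-(((thP D f R (A.tu R) x.1 : ℝ) : ℂ) * Complex.I)) * Function.uncurry (usm D ch A R A.m) x := by
      funext x
      rfl
    rw [h8]
    exact (h6.comp measurable_fst).mul hK.meas
  · obtain ⟨b, hb⟩ := hK.bdd
    refine ⟨b, fun x y => ?_⟩
    unfold KB
    rw [norm_mul, hph, one_mul]
    exact hb x y
  · intro γ x y
    unfold KB
    have h9 : thP D f R (A.tu R) (γ • x) = thP D f R (A.tu R) x := hthI (A.tu R) γ x
    have h10 : ub D ch A R (γ • x) (γ • y) = ub D ch A R x y := hK.inv γ x y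
    rw [h9, h10]
  · obtain ⟨T, hT⟩ := hK.range
    refine ⟨T, fun x y hxy => hT x y ?_⟩
    intro h11
    apply hxy
    unfold KB ub
    rw [h11, mul_zero]
  · intro v hv
    refine le_trans (le_of_eq ?_) (h1 A.m v le_rfl hv)
    unfold nP
    refine integral_congr_ae (Eventually.of_forall fun p => ?_)
    have h12 : Op (KB D ch A R f) v p = Complex.exp (-(((thP D f R (A.tu R) p : ℝ) : ℂ) * Complex.I)) *
        Op (usm D ch A R A.m) v p := by
      unfold Op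
      rw [← integral_const_mul]
      refine integral_congr_ae (Eventually.of_forall fun q => ?_)
      change Complex.exp (-(((thP D f R (A.tu R) p : ℝ) : ℂ) * Complex.I)) * usm D ch A R A.m p q * v q = _
      ring
    change ‖Op (KB D ch A R f) v p‖ ^ 2 = ‖Op (usm D ch A R A.m) v p‖ ^ 2
    rw [h12, norm_mul, hph, one_mul]

end Pool.Agent.VQ
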