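import Pool.Agent.helper80.VQ.SpecFL

/-! # Row vq:SAE of MP_07c750_an -/

set_option autoImplicit false

open scoped MatrixGroups ContDiff Topology UpperHalfPlane ComplexConjugate ENNReal
open UpperHalfPlane MeasureTheory Filter Set

namespace Pool.Agent.VQ

theorem SAE_prim {Λ : Type} [TopologicalSpace Λ] [FirstCountableTopology Λ] {E : Type} [NormedAddCommGroup E]
    [NormedSpace ℝ E] [CompleteSpace E] (s : Λ → ℝ → E) (hs : Continuous (fun q : Λ × ℝ => s q.1 q.2)) :
    (∀ p t, HasDerivAt (fun t => ∫ u in (0 : ℝ)..t, s p u) (s p t) t) ∧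
      Continuous (fun q : Λ × ℝ => ∫ u in (0 : ℝ)..q.2, s q.1 u) := by
  have hc : ∀ p, Continuous (s p) := fun p => hs.comp (Continuous.prodMk_right p)
  refine ⟨fun p t => ?_, ?_⟩
  · exact intervalIntegral.integral_hasDerivAt_right ((hc p).intervalIntegrable _ _)
      ((hc p).stronglyMeasurableAtFilter _ _) (hc p).continuousAt
  · exact intervalIntegral.continuous_parametric_primitive_of_continuous (f := s) hs

theorem SAE_proof : SAE_stmt := by
  intro Λ _ _ s m hs hm
  obtain ⟨h1, h2⟩ := SAE_prim s hs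
  obtain ⟨h3, h4⟩ := SAE_prim m hm
  refine ⟨⟨fun p t => ∫ u in (0 : ℝ)..t, s p u, fun p => intervalIntegral.integral_same, h1, h2⟩,
    fun p t => Complex.exp (∫ u in (0 : ℝ)..t, m p u), fun p => ?_, fun p t => ?_, ?_⟩
  · show Complex.exp (∫ u in (0 : ℝ)..0, m p u) = 1
    rw [intervalIntegral.integral_same, Complex.exp_zero]
  · have h5 := (h3 p t).cexp
    rw [mul_comm] at h5
    exact h5
  · exact Complex.continuous_exp.comp h4

end Pool.Agent.VQ
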